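import Pool.Agent.Helper83_CNED.Stmt

/-!
GOOD: Borel-Cantelli.
-/

open MeasureTheory Set Topology Filter

open scoped ENNReal

noncomputable section

namespace Pool.Agent.Helper83_CNED.H4

/-- points close to the grid of generation `m` -/
def bad (N m : ℕ) : Set ℝ :=
  ⋃ k ∈ Finset.Icc (-((RR m * (N + 1) : ℕ) : ℤ)) ((RR m * (N + 1) : ℕ) : ℤ),
    Icc ((k : ℝ) / RR m - 21 / RR (m + 1)) ((k : ℝ) / RR m + 21 / RR (m + 1))

theorem vol_bad (N m : ℕ) :
    volume (bad N m) ≤ ENNReal.ofReal ((2 * N + 3 : ℝ) * (1 / 2) ^ m) := by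
  have hR := RRr_pos m
  have hR1 : (1 : ℝ) ≤ RR m := by exact_mod_cast RR_pos m
  have hR' := RRr_pos (m + 1)
  have hM : (MM m : ℝ) = 112 * 2 ^ m := by
    unfold MM KK; push_cast; ring
  calc volume (bad N m) ≤ ∑ k ∈ Finset.Icc (-((RR m * (N + 1) : ℕ) : ℤ)) ((RR m * (N + 1) : ℕ) : ℤ),
        volume (Icc ((k : ℝ) / RR m - 21 / RR (m + 1)) ((k : ℝ) / RR m + 21 / RR (m + 1))) :=
        measure_biUnion_finset_le _ _
    _ = ∑ k ∈ Finset.Icc (-((RR m * (N + 1) : ℕ) : ℤ)) ((RR m * (N + 1) : ℕ) : ℤ),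
        ENNReal.ofReal (42 / RR (m + 1)) := by
        apply Finset.sum_congr rfl
        intro k _
        rw [Real.volume_Icc]
        congr 1
        ring
    _ = ENNReal.ofReal (((2 * (RR m * (N + 1)) + 1 : ℕ) : ℝ) * (42 / RR (m + 1))) := by
        rw [Finset.sum_const, nsmul_eq_mul, ENNReal.ofReal_mul (by positivity)]
        congr 1
        rw [ENNReal.ofReal_natCast]
        congr 1
        rw [Int.card_Icc]
        omega
    _ ≤ _ := by
        apply ENNReal.ofReal_le_ofReal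
        rw [RRr_succ, hM]
        have h2 : (0 : ℝ) < 2 ^ m := by positivity
        rw [one_div, inv_pow, ← div_eq_mul_inv, ← mul_div_assoc]
        rw [div_le_div_iff₀ (by positivity) (by positivity)]
        push_cast
        have h3 : (2 * ((RR m : ℝ) * (N + 1)) + 1) * 42 ≤ (2 * N + 3) * (RR m * 112) := by
          nlinarith [mul_nonneg (Nat.cast_nonneg N : (0:ℝ) ≤ N) hR.le]
        calc (2 * ((RR m : ℝ) * (N + 1)) + 1) * 42 * 2 ^ m
            ≤ ((2 * N + 3) * (RR m * 112)) * 2 ^ m := by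
              apply mul_le_mul_of_nonneg_right h3 h2.le
          _ = _ := by ring

theorem mem_bad (N m : ℕ) (t : ℝ) (ht : |t| ≤ N)
    (h : ¬ mid (MM m) (⌊(RR (m + 1) : ℝ) * t⌋ % MM m)) : t ∈ bad N m := by
  have hR := RRr_pos m
  have hR1 : (1 : ℝ) ≤ RR m := by exact_mod_cast RR_pos m
  have hR' := RRr_pos (m + 1)
  have hMr := MMr_pos m
  have hM : (112 : ℤ) ≤ MM m := by exact_mod_cast MM_ge m
  set K : ℤ := ⌊(RR (m + 1) : ℝ) * t⌋ with hK
  have hK1 : (K : ℝ) ≤ RR (m + 1) * t := Int.floor_le _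
  have hK2 : (RR (m + 1) : ℝ) * t < K + 1 := Int.lt_floor_add_one _
  have hdm := Int.mul_ediv_add_emod K (MM m : ℤ)
  have hr0 : 0 ≤ K % (MM m : ℤ) := Int.emod_nonneg _ (by omega)
  have hr1 : K % (MM m : ℤ) < MM m := Int.emod_lt_of_pos _ (by omega)
  -- the nearest grid line
  obtain ⟨k, hk1, hk2⟩ : ∃ k : ℤ, (MM m : ℤ) * k - 21 ≤ K ∧ K + 1 ≤ (MM m : ℤ) * k + 21 := by
    unfold mid at h
    by_cases h1 : K % (MM m : ℤ) < 21
    · exact ⟨K / MM m, by omega, by omega⟩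
    · refine ⟨K / MM m + 1, ?_, ?_⟩
      · have : ¬ (K % (MM m : ℤ) < MM m - 21) := fun h2 => h ⟨by omega, h2⟩
        have e : (MM m : ℤ) * (K / MM m + 1) = (MM m : ℤ) * (K / MM m) + MM m := by ring
        omega
      · have e : (MM m : ℤ) * (K / MM m + 1) = (MM m : ℤ) * (K / MM m) + MM m := by ring
        omega
  have hk1r : (MM m : ℝ) * k - 21 ≤ K := by exact_mod_cast hk1
  have hk2r : (K : ℝ) + 1 ≤ (MM m : ℝ) * k + 21 := by exact_mod_cast hk2
  have hRR := RRr_succ m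
  have ha : (k : ℝ) / RR m - 21 / RR (m + 1) ≤ t := by
    have : (k : ℝ) / RR m - 21 / RR (m + 1) = ((MM m : ℝ) * k - 21) / RR (m + 1) := by
      rw [hRR]; field_simp
    rw [this, div_le_iff₀ hR']
    linarith
  have hb : t ≤ (k : ℝ) / RR m + 21 / RR (m + 1) := by
    have : (k : ℝ) / RR m + 21 / RR (m + 1) = ((MM m : ℝ) * k + 21) / RR (m + 1) := by
      rw [hRR]; field_simp
    rw [this, le_div_iff₀ hR']
    linarith
  have h21 : (21 : ℝ) / RR (m + 1) ≤ 1 / RR m := by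
    rw [hRR, div_le_div_iff₀ (by positivity) hR]
    have : (112 : ℝ) ≤ MM m := by exact_mod_cast MM_ge m
    nlinarith
  have habs := abs_le.mp ht
  have hkR : |(k : ℝ)| ≤ RR m * (N + 1) := by
    rw [abs_le]
    have h3 : (k : ℝ) / RR m * RR m = k := by field_simp
    have h4 : (1 : ℝ) / RR m * RR m = 1 := by field_simp
    constructor
    · nlinarith [mul_le_mul_of_nonneg_right hb hR.le, mul_le_mul_of_nonneg_right h21 hR.le,
        mul_le_mul_of_nonneg_right habs.1 hR.le]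
    · nlinarith [mul_le_mul_of_nonneg_right ha hR.le, mul_le_mul_of_nonneg_right h21 hR.le,
        mul_le_mul_of_nonneg_right habs.2 hR.le]
  have hkZ : -((RR m * (N + 1) : ℕ) : ℤ) ≤ k ∧ k ≤ ((RR m * (N + 1) : ℕ) : ℤ) := by
    rw [abs_le] at hkR
    constructor
    · have := hkR.1
      exact_mod_cast this
    · have := hkR.2
      exact_mod_cast this
  unfold bad
  rw [mem_iUnion₂]
  exact ⟨k, Finset.mem_Icc.mpr hkZ, ha, hb⟩

theorem good_real : ∀ᵐ t : ℝ, ∀ᶠ m in atTop, GoodC m t := by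
  have h1 : ∀ N : ℕ, ∀ᵐ t : ℝ, ∀ᶠ m in atTop, t ∉ bad N m := by
    intro N
    apply ae_eventually_notMem
    have hs : Summable (fun m : ℕ => (2 * N + 3 : ℝ) * (1 / 2) ^ m) :=
      (summable_geometric_of_lt_one (by norm_num) (by norm_num)).mul_left _
    exact ne_top_of_le_ne_top hs.tsum_ofReal_ne_top (ENNReal.tsum_le_tsum (vol_bad N))
  have h2 : ∀ m : ℕ, ∀ k : ℤ, ∀ᵐ t : ℝ, (RR (m + 1) : ℝ) * t ≠ k := by
    intro m k
    have hR' := RRr_pos (m + 1)
    have : {t : ℝ | ¬ ((RR (m + 1) : ℝ) * t ≠ k)} ⊆ {(k : ℝ) / RR (m + 1)} := by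
      intro t ht
      simp only [ne_eq, not_not, mem_ofPred_eq] at ht
      rw [mem_singleton_iff, eq_div_iff hR'.ne', ← ht]
      ring
    exact measure_mono_null this (by simp)
  have h3 : ∀ᵐ t : ℝ, ∀ N : ℕ, ∀ᶠ m in atTop, t ∉ bad N m := ae_all_iff.mpr h1
  have h4 : ∀ᵐ t : ℝ, ∀ m : ℕ, ∀ k : ℤ, (RR (m + 1) : ℝ) * t ≠ k :=
    ae_all_iff.mpr fun m => ae_all_iff.mpr fun k => h2 m k
  filter_upwards [h3, h4] with t ht ht'
  obtain ⟨N, hN⟩ := exists_nat_ge |t|
  filter_upwards [ht N] with m hm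
  refine ⟨?_, ht' m⟩
  by_contra hc
  exact hm (mem_bad N m t hN hc)

theorem quasi_coord (j : Fin 3) :
    Measure.QuasiMeasurePreserving (fun p : Eu 3 => p j) volume volume := by
  have h1 := (Measure.quasiMeasurePreserving_eval (fun _ : Fin 3 => (volume : Measure ℝ)) j)
  have h2 := (PiLp.volume_preserving_ofLp (Fin 3)).quasiMeasurePreserving
  exact h1.comp h2

theorem good : GoodStmt := by
  unfold GoodStmt
  rw [ae_all_iff]
  intro j
  exact (quasi_coord j).ae good_real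

end Pool.Agent.Helper83_CNED.H4
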