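import Pool.Agent.Helper83_CNED.Stmt

/-!
LABF: labels of the children of a wall cube.
-/

open MeasureTheory Set Topology Filter

noncomputable section

namespace Pool.Agent.Helper83_CNED.H4

/-- the parent of a cube at distance at most `6` of `c` -/
theorem par_cases (m : ℕ) (z : Fin 3 → ℤ) (i : Fin 3) (c : Fin 3 → ℤ) (hz : par (MM m) c = z)
    (hm : ∀ j, j ≠ i → mid (MM m) (c j % MM m)) (z' : Fin 3 → ℤ) (hz' : ∀ j, |z' j - c j| ≤ 6) :
    par (MM m) z' = z ∨ (c i % MM m < 6 ∧ par (MM m) z' = z + (-1 : ℤ) • ue i) ∨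
      ((MM m : ℤ) - 6 ≤ c i % MM m ∧ par (MM m) z' = z + (1 : ℤ) • ue i) := by
  have hM : (112 : ℤ) ≤ MM m := by exact_mod_cast MM_ge m
  have hMpos : (0 : ℤ) < MM m := by omega
  have hzj : ∀ j, c j / (MM m : ℤ) = z j := fun j => congrFun hz j
  have hc : ∀ j, c j = (MM m : ℤ) * z j + c j % MM m := by
    intro j
    have := Int.mul_ediv_add_emod (c j) (MM m : ℤ)
    rw [hzj] at this
    linarith
  have hoff : ∀ j, j ≠ i → z' j / (MM m : ℤ) = z j := by
    intro j hj
    have h1 := hz' j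
    rw [abs_le] at h1
    obtain ⟨h2, h3⟩ := hm j hj
    have h4 := hc j
    rw [Int.ediv_eq_iff_of_pos hMpos]
    constructor <;> nlinarith
  have hi1 := hz' i
  rw [abs_le] at hi1
  have hr0 : 0 ≤ c i % (MM m : ℤ) := Int.emod_nonneg _ (by omega)
  have hr1 : c i % (MM m : ℤ) < MM m := Int.emod_lt_of_pos _ hMpos
  have hci := hc i
  by_cases ha : z' i < (MM m : ℤ) * z i
  · right; left
    refine ⟨by omega, ?_⟩
    funext j
    by_cases hj : j = i
    · subst hj
      simp only [par, Pi.add_apply, Pi.smul_apply, ue, Pi.single_eq_same, smul_eq_mul]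
      rw [Int.ediv_eq_iff_of_pos hMpos]
      constructor <;> nlinarith
    · simp only [par, Pi.add_apply, Pi.smul_apply, ue, Pi.single_eq_of_ne hj, smul_eq_mul,
        mul_zero, add_zero]
      exact hoff j hj
  · by_cases hb : (MM m : ℤ) * z i + MM m ≤ z' i
    · right; right
      refine ⟨by omega, ?_⟩
      funext j
      by_cases hj : j = i
      · subst hj
        simp only [par, Pi.add_apply, Pi.smul_apply, ue, Pi.single_eq_same, smul_eq_mul]
        rw [Int.ediv_eq_iff_of_pos hMpos]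
        constructor <;> nlinarith
      · simp only [par, Pi.add_apply, Pi.smul_apply, ue, Pi.single_eq_of_ne hj, smul_eq_mul,
          mul_zero, add_zero]
        exact hoff j hj
    · left
      funext j
      by_cases hj : j = i
      · subst hj
        simp only [par]
        rw [Int.ediv_eq_iff_of_pos hMpos]
        constructor <;> nlinarith
      · exact hoff j hj

/-- the child `c - 6 e_i` or `c + 6 e_i` lies in the neighbour -/
theorem par_shift (m : ℕ) (z : Fin 3 → ℤ) (i : Fin 3) (c : Fin 3 → ℤ) (hz : par (MM m) c = z) :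
    (c i % MM m < 6 → par (MM m) (c + (-6 : ℤ) • ue i) = z + (-1 : ℤ) • ue i) ∧
      ((MM m : ℤ) - 6 ≤ c i % MM m → par (MM m) (c + (6 : ℤ) • ue i) = z + (1 : ℤ) • ue i) := by
  have hM : (112 : ℤ) ≤ MM m := by exact_mod_cast MM_ge m
  have hMpos : (0 : ℤ) < MM m := by omega
  have hzj : ∀ j, c j / (MM m : ℤ) = z j := fun j => congrFun hz j
  have hc : c i = (MM m : ℤ) * z i + c i % MM m := by
    have := Int.mul_ediv_add_emod (c i) (MM m : ℤ)
    rw [hzj] at this
    linarith
  have hr0 : 0 ≤ c i % (MM m : ℤ) := Int.emod_nonneg _ (by omega)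
  have hr1 : c i % (MM m : ℤ) < MM m := Int.emod_lt_of_pos _ hMpos
  constructor
  · intro h
    funext j
    by_cases hj : j = i
    · subst hj
      simp only [par, Pi.add_apply, Pi.smul_apply, ue, Pi.single_eq_same, smul_eq_mul]
      rw [Int.ediv_eq_iff_of_pos hMpos]
      constructor <;> nlinarith
    · simp only [par, Pi.add_apply, Pi.smul_apply, ue, Pi.single_eq_of_ne hj, smul_eq_mul,
        mul_zero, add_zero]
      exact hzj j
  · intro h
    funext j
    by_cases hj : j = i
    · subst hj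
      simp only [par, Pi.add_apply, Pi.smul_apply, ue, Pi.single_eq_same, smul_eq_mul]
      rw [Int.ediv_eq_iff_of_pos hMpos]
      constructor <;> nlinarith
    · simp only [par, Pi.add_apply, Pi.smul_apply, ue, Pi.single_eq_of_ne hj, smul_eq_mul,
        mul_zero, add_zero]
      exact hzj j

theorem near_iff (m : ℕ) (z : Fin 3 → ℤ) (i : Fin 3) (c : Fin 3 → ℤ) (hz : par (MM m) c = z)
    (hm : ∀ j, j ≠ i → mid (MM m) (c j % MM m)) (e : ℤ) :
    near (MM m) (lab m) c e ↔ (lab m z = e ∨ (c i % MM m < 6 ∧ lab m (z + (-1 : ℤ) • ue i) = e) ∨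
      ((MM m : ℤ) - 6 ≤ c i % MM m ∧ lab m (z + (1 : ℤ) • ue i) = e)) := by
  constructor
  · rintro ⟨z', h1, h2⟩
    rcases par_cases m z i c hz hm z' h1 with h | ⟨h, h'⟩ | ⟨h, h'⟩
    · left; rw [← h]; exact h2
    · right; left; exact ⟨h, by rw [← h']; exact h2⟩
    · right; right; exact ⟨h, by rw [← h']; exact h2⟩
  · have hbd : ∀ k : ℤ, |k| ≤ 6 → ∀ j, |(c + k • ue i) j - c j| ≤ 6 := by
      intro k hk j
      by_cases hj : j = i
      · subst hj
        simpa [ue] using hk
      · simp [ue, Pi.single_eq_of_ne hj]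
    rintro (h | ⟨h, h'⟩ | ⟨h, h'⟩)
    · exact ⟨c, by simp, by rw [hz]; exact h⟩
    · refine ⟨c + (-6 : ℤ) • ue i, hbd _ (by decide), ?_⟩
      rw [(par_shift m z i c hz).1 h]; exact h'
    · refine ⟨c + (6 : ℤ) • ue i, hbd _ (by decide), ?_⟩
      rw [(par_shift m z i c hz).2 h]; exact h'

theorem adj_lab (hLip : LipStmt) (m : ℕ) (z : Fin 3 → ℤ) (i : Fin 3) (k : ℤ) (hk : |k| ≤ 1) :
    |lab m (z + k • ue i) - lab m z| ≤ 1 := by
  apply hLip
  intro j
  by_cases hj : j = i
  · subst hj
    simpa [ue] using hk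
  · simp [ue, Pi.single_eq_of_ne hj]

theorem step_of_nb (m : ℕ) (z c : Fin 3 → ℤ) (hz : par (MM m) c = z) :
    lab (m + 1) c = lab m z + nb (MM m) (lab m) c +
      patAt (MM m) (fun j => c j % MM m) * (lab m z - nb (MM m) (lab m) c) := by
  rw [lab_succ, step, hz]

/-- a gap on the near side -/
theorem nb_of_even (hLip : LipStmt) (m : ℕ) (z : Fin 3 → ℤ) (i : Fin 3) (c : Fin 3 → ℤ)
    (ho : Odd (lab m z)) (hz : par (MM m) c = z)
    (hm : ∀ j, j ≠ i → mid (MM m) (c j % MM m)) (k : ℤ)
    (hk : (k = -1 ∧ c i % MM m < 6) ∨ (k = 1 ∧ (MM m : ℤ) - 6 ≤ c i % MM m))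
    (he : Even (lab m (z + k • ue i))) : nb (MM m) (lab m) c = lab m (z + k • ue i) := by
  have hM : (112 : ℤ) ≤ MM m := by exact_mod_cast MM_ge m
  have hkk : |k| ≤ 1 := by rcases hk with ⟨h, _⟩ | ⟨h, _⟩ <;> rw [h] <;> decide
  have hadj := adj_lab hLip m z i k hkk
  have hiff : ∀ e, near (MM m) (lab m) c e ↔ (lab m z = e ∨ lab m (z + k • ue i) = e) := by
    intro e
    rw [near_iff m z i c hz hm e]
    rcases hk with ⟨h, h'⟩ | ⟨h, h'⟩
    · subst h
      constructor
      · rintro (h1 | ⟨_, h1⟩ | ⟨h1, _⟩)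
        · exact Or.inl h1
        · exact Or.inr h1
        · omega
      · rintro (h1 | h1)
        · exact Or.inl h1
        · exact Or.inr (Or.inl ⟨h', h1⟩)
    · subst h
      constructor
      · rintro (h1 | ⟨h1, _⟩ | ⟨_, h1⟩)
        · exact Or.inl h1
        · omega
        · exact Or.inr h1
      · rintro (h1 | h1)
        · exact Or.inl h1
        · exact Or.inr (Or.inr ⟨h', h1⟩)
  have hno : ¬ Even (lab m z) := Int.not_even_iff_odd.mpr ho
  unfold nb
  rw [hz, if_neg hno, hiff, hiff]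
  rw [abs_le] at hadj
  obtain ⟨a, ha⟩ := ho
  obtain ⟨b, hb⟩ := he
  have hcase : lab m (z + k • ue i) = lab m z - 1 ∨ lab m (z + k • ue i) = lab m z + 1 := by omega
  rcases hcase with h | h
  · rw [if_pos (Or.inr h), h]
  · rw [if_neg (by rintro (h1 | h1) <;> omega), if_pos (Or.inr h), h]

/-- no gap on the near side -/
theorem nb_of_odd (hLip : LipStmt) (m : ℕ) (z : Fin 3 → ℤ) (i : Fin 3) (c : Fin 3 → ℤ)
    (ho : Odd (lab m z)) (hz : par (MM m) c = z)
    (hm : ∀ j, j ≠ i → mid (MM m) (c j % MM m))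
    (h1 : c i % MM m < 6 → ¬ Even (lab m (z + (-1 : ℤ) • ue i)))
    (h2 : (MM m : ℤ) - 6 ≤ c i % MM m → ¬ Even (lab m (z + (1 : ℤ) • ue i))) :
    nb (MM m) (lab m) c = lab m z := by
  have hno : ¬ Even (lab m z) := Int.not_even_iff_odd.mpr ho
  have hA := adj_lab hLip m z i (-1) (by decide)
  have hB := adj_lab hLip m z i 1 (by decide)
  rw [abs_le] at hA hB
  have key : ∀ e, (e = lab m z - 1 ∨ e = lab m z + 1) → ¬ near (MM m) (lab m) c e := by
    intro e he
    rw [near_iff m z i c hz hm e]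
    rintro (h | ⟨h, h'⟩ | ⟨h, h'⟩)
    · omega
    · apply h1 h
      rw [h']
      obtain ⟨a, ha⟩ := ho
      rcases he with he | he
      · exact ⟨a, by omega⟩
      · exact ⟨a + 1, by omega⟩
    · apply h2 h
      rw [h']
      obtain ⟨a, ha⟩ := ho
      rcases he with he | he
      · exact ⟨a, by omega⟩
      · exact ⟨a + 1, by omega⟩
  unfold nb
  rw [hz, if_neg hno, if_neg (key _ (Or.inl rfl)), if_neg (key _ (Or.inr rfl))]

theorem patAt_eq (m : ℕ) (i : Fin 3) (c : Fin 3 → ℤ)
    (hm : ∀ j, j ≠ i → mid (MM m) (c j % MM m)) (hd : dep (MM m) (c i % MM m) < 6) :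
    patAt (MM m) (fun j => c j % MM m) =
      pat (dep (MM m) (c i % MM m)) (c (i + 1) % MM m % 7) (c (i + 2) % MM m % 7) := by
  unfold patAt
  rw [Finset.sum_eq_single i]
  · have h1 : i + 1 ≠ i := by fin_cases i <;> decide
    have h2 : i + 2 ≠ i := by fin_cases i <;> decide
    rw [if_pos ⟨hd, hm _ h1, hm _ h2⟩]
  · intro j _ hj
    rw [if_neg]
    rintro ⟨h, _⟩
    obtain ⟨h3, h4⟩ := hm j hj
    dsimp only at h
    unfold dep at h
    omega
  · intro h
    exact absurd (Finset.mem_univ i) h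

theorem labF (hLip : LipStmt) : LabFStmt := by
  intro m z i c ho hz hm
  have hM : (112 : ℤ) ≤ MM m := by exact_mod_cast MM_ge m
  have hr0 : 0 ≤ c i % (MM m : ℤ) := Int.emod_nonneg _ (by omega)
  have hr1 : c i % (MM m : ℤ) < MM m := Int.emod_lt_of_pos _ (by omega)
  refine ⟨?_, ?_⟩
  · intro s u he hu hu6
    have hnb : nb (MM m) (lab m) c = lab m (z + sg s • ue i) := by
      apply nb_of_even hLip m z i c ho hz hm (sg s) _ he
      cases s
      · left
        simp only [sg] at *
        simp only [Bool.false_eq_true, if_false] at hu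
        exact ⟨rfl, by omega⟩
      · right
        simp only [sg] at *
        simp only [if_true] at hu
        exact ⟨rfl, by omega⟩
    have hdep : dep (MM m) (c i % MM m) = u := by
      unfold dep
      cases s
      · simp only [Bool.false_eq_true, if_false] at hu
        omega
      · simp only [if_true] at hu
        omega
    rw [step_of_nb m z c hz, hnb, patAt_eq m i c hm (by rw [hdep]; exact hu6), hdep]
  · intro h1 h2
    have hnb : nb (MM m) (lab m) c = lab m z := by
      apply nb_of_odd hLip m z i c ho hz hm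
      · intro h he
        have := h1 he
        omega
      · intro h he
        have := h2 he
        omega
    rw [step_of_nb m z c hz, hnb]
    ring

end Pool.Agent.Helper83_CNED.H4
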